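import Mathlib
import Pool.Agent.Results.MP_eb30e1_co.FewestMembers

/-!
# The fixed point property along maximal chains of order relations (MP_eb30e1, Q2)

For `n ≥ 2`, the largest number of adjacencies at which the fixed point property is gained in a
maximal chain of order relations on `[n]` is `⌊(n-2)²/4⌋ + 1`. For `n ≤ 1` it is `0`.
-/

namespace Pool.Agent.Results.MP_eb30e1_co.MostAdjacencies

open Finset Pool.Agent.Results.MP_eb30e1_co.FewestMembers

open Classical in
/-- The number of adjacencies `r i ≺ r (i + 1)` for which `r i` lacks the fixed point property and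
`r (i + 1)` has it. -/
noncomputable def countAdj {α : Type} (T : ℕ) (r : ℕ → α → α → Prop) : ℕ :=
  ((range T).filter (fun i => ¬ FPP (r i) ∧ FPP (r (i + 1)))).card

/-! ### The upper bound -/

section upper

variable {α : Type} [Fintype α] {T : ℕ} {r : ℕ → α → α → Prop}

/-- The comparability graph. -/
def cg (s : α → α → Prop) : SimpleGraph α where
  Adj x y := x ≠ y ∧ (s x y ∨ s y x)
  symm := ⟨fun _ _ h => ⟨h.1.symm, h.2.symm⟩⟩
  loopless := ⟨fun _ h => h.1 rfl⟩

open Classical in
lemma card_edges (hr : IsMaximalChain T r) (i : ℕ) (hi : i ≤ T) :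
    Nat.card (cg (r i)).edgeSet ≤ i := by
  have h1 : (cg (r i)).edgeSet ⊆
      (((prs (r i)).filter (fun p => p.1 ≠ p.2)).image (fun p => s(p.1, p.2)) :
        Finset (Sym2 α)) := by
    intro e
    induction e using Sym2.ind with
    | _ x y =>
      intro h
      rw [SimpleGraph.mem_edgeSet] at h
      rw [mem_coe, mem_image]
      rcases h.2 with h2 | h2
      · exact ⟨(x, y), by rw [mem_filter, mem_prs]; exact ⟨h2, h.1⟩, rfl⟩
      · exact ⟨(y, x), by rw [mem_filter, mem_prs]; exact ⟨h2, h.1.symm⟩, Sym2.eq_swap⟩
  have h2 : ((prs (r i)).filter (fun p => p.1 ≠ p.2)).card ≤ i := by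
    have h3 := card_prs hr i hi
    have h4 : (univ : Finset α).image (fun x => (x, x)) ⊆
        (prs (r i)).filter (fun p => ¬ p.1 ≠ p.2) := by
      intro p hp
      rw [mem_image] at hp
      obtain ⟨x, -, rfl⟩ := hp
      rw [mem_filter, mem_prs]
      exact ⟨(hr.order i hi).1 x, by simp⟩
    have h5 := card_le_card h4
    rw [card_image_of_injective _ (fun x y h => (Prod.mk.injEq _ _ _ _ ▸ h).1), card_univ] at h5
    have h6 := card_filter_add_card_filter_not (s := prs (r i)) (fun p => p.1 ≠ p.2)
    omega
  have h7 := Nat.card_mono (Finset.finite_toSet _) h1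
  refine h7.trans ?_
  rw [Nat.card_coe_set_eq, Set.ncard_coe_finset]
  exact card_image_le.trans h2

/-- Members with fewer than `|α| - 1` strict pairs lack the fixed point property. -/
lemma not_fpp_early (hr : IsMaximalChain T r) {i : ℕ} (hi : i ≤ T)
    (h : i + 1 < Fintype.card α) : ¬ FPP (r i) := by
  classical
  intro hF
  have hne : Nonempty α := Fintype.card_pos_iff.1 (by omega)
  have hnc : ¬ (cg (r i)).Connected := by
    intro hc
    have h1 := hc.card_vert_le_card_edgeSet_add_one
    have h2 := card_edges hr i hi
    rw [Nat.card_eq_fintype_card] at h1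
    omega
  have hnp : ¬ (cg (r i)).Preconnected := fun hp => hnc ⟨hp⟩
  unfold SimpleGraph.Preconnected at hnp
  push Not at hnp
  obtain ⟨u, v, huv⟩ := hnp
  obtain ⟨x, hx⟩ := hF (fun x => if (cg (r i)).Reachable u x then v else u) (by
    intro x y hxy
    have hiff : (cg (r i)).Reachable u x ↔ (cg (r i)).Reachable u y := by
      by_cases he : x = y
      · rw [he]
      · have hadj : (cg (r i)).Adj x y := ⟨he, Or.inl hxy⟩
        exact ⟨fun h => h.trans hadj.reachable, fun h => h.trans hadj.symm.reachable⟩
    simp only [hiff]
    exact (hr.order i hi).1 _)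
  have hx' : (if (cg (r i)).Reachable u x then v else u) = x := hx
  split_ifs at hx' with h1
  · rw [← hx'] at h1
    exact huv h1
  · rw [← hx'] at h1
    exact h1 (SimpleGraph.Reachable.refl _)

/-- The upper bound. -/
lemma countAdj_le (hr : IsMaximalChain T r) (K : ℕ)
    (hT : 2 * T ≤ Fintype.card α + 2 * (Fintype.card α - 2 + 2 * K) + 1) : countAdj T r ≤ K + 1 := by
  classical
  unfold countAdj
  rw [← card_range (K + 1)]
  refine card_le_card_of_injOn (fun i => (i - (Fintype.card α - 2)) / 2) ?_ ?_
  · intro i hi
    rw [mem_coe, mem_filter, mem_range] at hi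
    rw [mem_coe, mem_range]
    have h1 : ¬ 2 * (T - i) < Fintype.card α := fun h => hi.2.1 (fpp_of_few hr (by omega) h)
    have h2 : ¬ (i + 1 + 1 < Fintype.card α) := fun h => not_fpp_early hr (by omega) h hi.2.2
    change (i - (Fintype.card α - 2)) / 2 < K + 1
    omega
  · intro i hi j hj hij
    rw [mem_coe, mem_filter, mem_range] at hi hj
    have h1 : ¬ (i + 1 + 1 < Fintype.card α) := fun h => not_fpp_early hr (by omega) h hi.2.2
    have h2 : ¬ (j + 1 + 1 < Fintype.card α) := fun h => not_fpp_early hr (by omega) h hj.2.2
    change (i - (Fintype.card α - 2)) / 2 = (j - (Fintype.card α - 2)) / 2 at hij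
    by_contra hne
    have h3 : i = j + 1 ∨ j = i + 1 := by omega
    rcases h3 with h3 | h3
    · rw [h3] at hi
      exact hi.2.1 hj.2.2
    · rw [h3] at hj
      exact hj.2.1 hi.2.2

end upper

/-! ### The construction -/

section lower

/-- If every value of an order preserving retraction `ρ ≥ id` is comparable to `c`, the fixed point
property holds. -/
lemma fpp_of_cone {α : Type} [Fintype α] {s : α → α → Prop} (hs : IsOrder s) (c : α) (ρ : α → α)
    (hρ : ∀ x y, s x y → s (ρ x) (ρ y)) (hle : ∀ x, s x (ρ x))
    (hc : ∀ x, s c (ρ x) ∨ s (ρ x) c) : FPP s := by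
  intro f hf
  by_contra hfree
  push Not at hfree
  by_cases hg : ∀ x, ρ (f x) ≠ x
  · have h1 := incomp_of_free hs (f := fun x => ρ (f x)) (fun x y h => hρ _ _ (hf _ _ h)) hg c
    rcases hc (f c) with h2 | h2
    · exact h1.1 h2
    · exact h1.2 h2
  · push Not at hg
    obtain ⟨x, hx⟩ := hg
    have h1 := incomp_of_free hs hf hfree x
    have h2 := hle (f x)
    rw [hx] at h2
    exact h1.2 h2

/-- The time at which the pair of a point of the old set and the second new point is added. -/
def tv (m x : ℕ) : ℕ :=
  if x = m - 2 then m else if x = m - 1 then 3 * m - 3 else m + 1 + 2 * x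

/-- The new chain on `m + 2` points. The new points `inr false`, `inr true` are put above the old
points; the relations on the old points follow the chain `q`, whose first `m - 2` steps put the
points `0, …, m - 3` below `m - 2` and are interleaved with the other steps. -/
def nx (m T : ℕ) (q : ℕ → Fin m → Fin m → Prop) (j : ℕ) :
    Fin m ⊕ Bool → Fin m ⊕ Bool → Prop
  | .inl x, .inl y => if j < 3 * m - 2 then
      (x = y ∨ (y.val = m - 2 ∧ x.val < m - 2 ∧ m + 2 + 2 * x.val < j)) else
      q (min (j - 2 * m) T) x y
  | .inl x, .inr b => (if b then tv m x.val else x.val) < j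
  | .inr _, .inl _ => False
  | .inr a, .inr b => a = b ∨ (2 * m + T < j ∧ a = false ∧ b = true)

variable {m T : ℕ} {q : ℕ → Fin m → Fin m → Prop}

lemma tv_lt (hm : 2 ≤ m) (x : Fin m) : tv m x.val < 3 * m - 2 := by
  have := x.2
  unfold tv
  split_ifs <;> omega

lemma new_order (hm : 2 ≤ m) (hq : IsMaximalChain T q) (hT : m - 2 ≤ T) (j : ℕ) :
    IsOrder (nx m T q j) := by
  have hqo := hq.order (min (j - 2 * m) T) (min_le_right _ _)
  refine ⟨?_, ?_, ?_⟩
  · rintro (x | a)
    · change (if j < 3 * m - 2 then _ else _)
      split_ifs
      · exact Or.inl rfl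
      · exact hqo.1 _
    · exact Or.inl rfl
  · rintro (x | a) (y | b) h1 h2
    · change (if j < 3 * m - 2 then _ else _) at h1 h2
      split_ifs at h1 h2 with hj
      · rcases h1 with h1 | h1
        · rw [h1]
        · rcases h2 with h2 | h2
          · rw [h2]
          · omega
      · rw [hqo.2.1 _ _ h1 h2]
    · exact h2.elim
    · exact h1.elim
    · rcases h1 with h1 | h1
      · rw [h1]
      · rcases h2 with h2 | h2
        · rw [h2]
        · rw [h1.2.2] at h2; simp at h2
  · rintro (x | a) (y | b) (z | c) h1 h2
    · change (if j < 3 * m - 2 then _ else _) at h1 h2 ⊢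
      split_ifs at h1 h2 ⊢ with hj
      · rcases h1 with h1 | h1
        · rw [h1]; exact h2
        · rcases h2 with h2 | h2
          · rw [← h2]; exact Or.inr h1
          · omega
      · exact hqo.2.2 _ _ _ h1 h2
    · change (if j < 3 * m - 2 then _ else _) at h1
      change (if c then _ else _) < j at h2
      change (if c then _ else _) < j
      split_ifs at h1 with hj
      · rcases h1 with h1 | h1
        · rw [h1]; exact h2
        · cases c
          · simp only [Bool.false_eq_true, if_false] at h2 ⊢
            omega
          · simp only [if_true] at h2 ⊢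
            unfold tv
            split_ifs <;> omega
      · have := tv_lt hm x
        have := x.2
        cases c
        · simp only [Bool.false_eq_true, if_false] at h2 ⊢
          omega
        · simp only [if_true] at h2 ⊢
          omega
    · exact h2.elim
    · change (if b then _ else _) < j at h1
      change (if c then _ else _) < j
      rcases h2 with h2 | h2
      · rw [← h2]; exact h1
      · have := tv_lt hm x
        have := x.2
        cases c
        · simp only [Bool.false_eq_true, if_false]
          omega
        · simp only [if_true]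
          omega
    · exact h1.elim
    · exact h1.elim
    · exact h2.elim
    · rcases h1 with h1 | h1
      · rw [h1]; exact h2
      · rcases h2 with h2 | h2
        · rw [← h2]; exact Or.inr h1
        · exact Or.inr ⟨h1.1, h1.2.1, h2.2.2⟩

lemma new_chain (hm : 2 ≤ m) (hq : IsMaximalChain T q) (hT : m - 2 ≤ T)
    (hstar : ∀ x y, q (m - 2) x y ↔ x = y ∨ (y.val = m - 2 ∧ x.val < m - 2)) :
    IsMaximalChain (2 * m + T + 1) (nx m T q) where
  order := fun j _ => new_order hm hq hT j
  start := by
    rintro (x | a) (y | b)
    · change (if 0 < 3 * m - 2 then _ else _) ↔ _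
      rw [if_pos (by omega)]
      simp
    · change _ < 0 ↔ _
      simp
    · change False ↔ _
      simp
    · change (a = b ∨ _) ↔ _
      simp
  step := by
    intro j hj
    rcases Nat.lt_or_ge j (3 * m - 2) with h1 | h1
    · -- the pairs added before time `3 m - 2`
      have inside : ∀ (x y : Fin m) (hn : ¬ (m < j ∧ ∃ k, k < m - 2 ∧ j = m + 2 + 2 * k)),
          nx m T q (j + 1) (.inl x) (.inl y) ↔ nx m T q j (.inl x) (.inl y) := by
        intro x y hn
        change (if j + 1 < 3 * m - 2 then _ else _) ↔ (if j < 3 * m - 2 then _ else _)
        rw [if_pos h1]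
        split_ifs with h2
        · constructor
          · rintro (h | h)
            · exact Or.inl h
            · refine Or.inr ⟨h.1, h.2.1, ?_⟩
              by_contra hc
              exact hn ⟨by omega, x.val, h.2.1, by omega⟩
          · rintro (h | h)
            · exact Or.inl h
            · exact Or.inr ⟨h.1, h.2.1, by omega⟩
        · rw [show min (j + 1 - 2 * m) T = m - 2 by omega, hstar]
          constructor
          · rintro (h | h)
            · exact Or.inl h
            · refine Or.inr ⟨h.1, h.2, ?_⟩
              have := hn
              by_contra hc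
              omega
          · rintro (h | h)
            · exact Or.inl h
            · exact Or.inr ⟨h.1, h.2.1⟩
      have hnew : ∀ a b : Bool, nx m T q (j + 1) (.inr a) (.inr b) ↔
          nx m T q j (.inr a) (.inr b) := by
        intro a b
        change (a = b ∨ (2 * m + T < j + 1 ∧ _)) ↔ (a = b ∨ (2 * m + T < j ∧ _))
        have e1 : ¬ 2 * m + T < j + 1 := by omega
        have e2 : ¬ 2 * m + T < j := by omega
        simp [e1, e2]
      rcases Nat.lt_or_ge j m with h2 | h2
      · refine ⟨.inl ⟨j, h2⟩, .inr false, ?_, ?_⟩
        · change ¬ (j < j)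
          omega
        · rintro (x | a) (y | b)
          · rw [inside x y (by omega)]
            simp
          · cases b
            · change x.val < j + 1 ↔ x.val < j ∨ _
              simp only [Sum.inl.injEq, Fin.ext_iff]
              simp
              omega
            · change tv m x.val < j + 1 ↔ tv m x.val < j ∨ _
              have h3 : m ≤ tv m x.val := by
                unfold tv
                split_ifs <;> omega
              simp
              omega
          · change False ↔ False ∨ _
            simp
          · rw [hnew]
            simp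
      · -- the first new point is above everything
        have hfull : ∀ x : Fin m, nx m T q (j + 1) (.inl x) (.inr false) ↔
            nx m T q j (.inl x) (.inr false) := by
          intro x
          change x.val < j + 1 ↔ x.val < j
          have := x.2
          omega
        have addv : ∀ k (hk : k < m), tv m k = j → (∀ l, l < m → tv m l = j → l = k) →
            ¬ (m < j ∧ ∃ k, k < m - 2 ∧ j = m + 2 + 2 * k) →
            ∃ a b, ¬ nx m T q j a b ∧ ∀ x y, nx m T q (j + 1) x y ↔
              nx m T q j x y ∨ (x = a ∧ y = b) := by
          intro k hk hkj huniq hno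
          refine ⟨.inl ⟨k, hk⟩, .inr true, ?_, ?_⟩
          · change ¬ (tv m k < j)
            omega
          · rintro (x | a) (y | b)
            · rw [inside x y hno]
              simp
            · cases b
              · rw [hfull]
                simp
              · change tv m x.val < j + 1 ↔ tv m x.val < j ∨ _
                have h3 := huniq x.val x.2
                simp only [Sum.inl.injEq, Fin.ext_iff, and_true]
                constructor
                · intro h4
                  by_cases h5 : tv m x.val = j
                  · exact Or.inr (h3 h5)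
                  · exact Or.inl (by omega)
                · rintro (h4 | h4)
                  · omega
                  · rw [h4]; omega
            · change False ↔ False ∨ _
              simp
            · rw [hnew]
              simp
        rcases Nat.eq_or_lt_of_le h2 with h3 | h3
        · refine addv (m - 2) (by omega) (by simp [tv, h3]) ?_ (by omega)
          intro l hl
          unfold tv
          split_ifs <;> omega
        · rcases Nat.lt_or_ge j (3 * m - 3) with h4 | h4
          · obtain ⟨k, hk⟩ : ∃ k, j = m + 1 + 2 * k ∨ j = m + 2 + 2 * k :=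
              ⟨(j - (m + 1)) / 2, by omega⟩
            rcases hk with hk | hk
            · refine addv k (by omega) ?_ ?_ ?_
              · unfold tv
                rw [if_neg (by omega), if_neg (by omega)]
                omega
              · intro l hl
                unfold tv
                split_ifs <;> omega
              · rintro ⟨-, l, -, hl⟩
                omega
            · refine ⟨.inl ⟨k, by omega⟩, .inl ⟨m - 2, by omega⟩, ?_, ?_⟩
              · change ¬ (if j < 3 * m - 2 then _ else _)
                rw [if_pos h1]
                simp only [Fin.mk.injEq]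
                omega
              · rintro (x | a) (y | b)
                · change (if j + 1 < 3 * m - 2 then _ else _) ↔ (if j < 3 * m - 2 then _ else _) ∨ _
                  rw [if_pos h1]
                  simp only [Sum.inl.injEq, Fin.ext_iff]
                  split_ifs with h5
                  · omega
                  · omega
                · cases b
                  · rw [hfull]
                    simp
                  · change tv m x.val < j + 1 ↔ tv m x.val < j ∨ _
                    have h6 : tv m x.val ≠ j := by
                      unfold tv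
                      split_ifs <;> omega
                    simp
                    omega
                · change False ↔ False ∨ _
                  simp
                · rw [hnew]
                  simp
          · refine addv (m - 1) (by omega) ?_ ?_ ?_
            · unfold tv
              rw [if_neg (by omega), if_pos rfl]
              omega
            · intro l hl
              unfold tv
              split_ifs <;> omega
            · rintro ⟨-, l, h5, h6⟩
              omega
    · have hup : ∀ (x : Fin m) (b : Bool), nx m T q (j + 1) (.inl x) (.inr b) ↔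
          nx m T q j (.inl x) (.inr b) := by
        intro x b
        change (if b then _ else _) < j + 1 ↔ (if b then _ else _) < j
        have := x.2
        have := tv_lt hm x
        cases b
        · simp only [Bool.false_eq_true, if_false]
          omega
        · simp only [if_true]
          omega
      rcases Nat.lt_or_ge j (2 * m + T) with h2 | h2
      · obtain ⟨a, b, hab, hst⟩ := hq.step (j - 2 * m) (by omega)
        refine ⟨.inl a, .inl b, ?_, ?_⟩
        · change ¬ (if j < 3 * m - 2 then _ else _)
          rw [if_neg (by omega), min_eq_left (by omega)]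
          exact hab
        · rintro (x | c) (y | d)
          · change (if j + 1 < 3 * m - 2 then _ else _) ↔ (if j < 3 * m - 2 then _ else _) ∨ _
            rw [if_neg (by omega), if_neg (by omega), min_eq_left (by omega),
              min_eq_left (by omega), show j + 1 - 2 * m = j - 2 * m + 1 by omega, hst]
            simp
          · rw [hup]
            simp
          · change False ↔ False ∨ _
            simp
          · change (c = d ∨ (2 * m + T < j + 1 ∧ _)) ↔ (c = d ∨ (2 * m + T < j ∧ _)) ∨ _
            have e1 : ¬ 2 * m + T < j + 1 := by omega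
            have e2 : ¬ 2 * m + T < j := by omega
            simp [e1, e2]
      · have hj3 : j = 2 * m + T := by omega
        refine ⟨.inr false, .inr true, ?_, ?_⟩
        · change ¬ (false = true ∨ _)
          simp [hj3]
        · rintro (x | c) (y | d)
          · change (if j + 1 < 3 * m - 2 then _ else _) ↔ (if j < 3 * m - 2 then _ else _) ∨ _
            rw [if_neg (by omega), if_neg (by omega), min_eq_right (by omega),
              min_eq_right (by omega)]
            simp
          · rw [hup]
            simp
          · change False ↔ False ∨ _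
            simp
          · change (c = d ∨ (2 * m + T < j + 1 ∧ _)) ↔ (c = d ∨ (2 * m + T < j ∧ _)) ∨ _
            simp [hj3]
  final := by
    rintro (x | a) (y | b)
    · change (if _ < 3 * m - 2 then _ else _) ∨ (if _ < 3 * m - 2 then _ else _)
      rw [if_neg (by omega), if_neg (by omega), min_eq_right (by omega)]
      exact hq.final x y
    · left
      change (if b then _ else _) < _
      have := x.2
      have := tv_lt hm x
      cases b
      · simp only [Bool.false_eq_true, if_false]
        omega
      · simp only [if_true]
        omega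
    · right
      change (if a then _ else _) < _
      have := y.2
      have := tv_lt hm y
      cases a
      · simp only [Bool.false_eq_true, if_false]
        omega
      · simp only [if_true]
        omega
    · rcases a <;> rcases b <;> simp [nx]

/-- Once both new points are above the old set, the fixed point property is that of the old set. -/
lemma sum_regime (hm : 2 ≤ m) (hq : IsMaximalChain T q) (hT : m - 2 ≤ T) {j : ℕ}
    (h1 : 3 * m - 2 ≤ j) (h2 : j ≤ 2 * m + T) : FPP (nx m T q j) ↔ FPP (q (j - 2 * m)) := by
  have hup : ∀ (x : Fin m) (b : Bool), nx m T q j (.inl x) (.inr b) := by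
    intro x b
    change (if b then _ else _) < j
    have := x.2
    have := tv_lt hm x
    cases b
    · simp only [Bool.false_eq_true, if_false]
      omega
    · simp only [if_true]
      omega
  have hin : ∀ x y : Fin m, nx m T q j (.inl x) (.inl y) ↔ q (j - 2 * m) x y := by
    intro x y
    change (if j < 3 * m - 2 then _ else _) ↔ _
    rw [if_neg (by omega), min_eq_left (by omega)]
  have hnew : ∀ a b : Bool, nx m T q j (.inr a) (.inr b) ↔ a = b := by
    intro a b
    change (a = b ∨ (2 * m + T < j ∧ _)) ↔ _
    have e2 : ¬ 2 * m + T < j := by omega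
    simp [e2]
  have ho := new_order hm hq hT j
  constructor
  · intro hF g hg
    obtain ⟨x, hx⟩ := hF (fun x => match x with
      | .inl b => .inl (g b)
      | .inr a => .inr (!a)) (by
        rintro (x | a) (y | b) h
        · rw [hin] at h ⊢
          exact hg _ _ h
        · exact hup _ _
        · exact h.elim
        · rw [hnew] at h ⊢
          rw [h])
    rcases x with b | a
    · exact ⟨b, by simpa using hx⟩
    · simp at hx
  · intro hF f hf
    by_contra hfree
    push Not at hfree
    have hinc := incomp_of_free ho hf hfree
    have hl : ∀ x : Fin m, ∃ y, f (.inl x) = .inl y := by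
      intro x
      rcases hfx : f (.inl x) with y | b
      · exact ⟨y, rfl⟩
      · have := (hinc (.inl x)).1
        rw [hfx] at this
        exact absurd (hup _ _) this
    choose g hg using hl
    obtain ⟨x, hx⟩ := hF g (by
      intro x y hxy
      have := hf _ _ ((hin x y).2 hxy)
      rw [hg, hg, hin] at this
      exact this)
    exact hfree (.inl x) (by rw [hg, hx])

/-- The member in which the first new point is above all old points and nothing else is related. -/
lemma star_member (hm : 2 ≤ m) (x y : Fin m ⊕ Bool) :
    nx m T q m x y ↔ x = y ∨ (y = .inr false ∧ ∃ a, x = .inl a) := by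
  rcases x with x | a <;> rcases y with y | b
  · change (if m < 3 * m - 2 then _ else _) ↔ _
    rw [if_pos (by omega)]
    simp
    omega
  · cases b
    · change x.val < m ↔ _
      simp
    · change tv m x.val < m ↔ _
      have : ¬ tv m x.val < m := by
        unfold tv
        split_ifs <;> omega
      simp [this]
  · change False ↔ _
    simp
  · change (a = b ∨ (2 * m + T < m ∧ _)) ↔ _
    have e2 : ¬ 2 * m + T < m := by omega
    simp [e2]

lemma inl_inl_iff {j : ℕ} (hj : j < 3 * m - 2) (x y : Fin m) :
    nx m T q j (.inl x) (.inl y) ↔
      x = y ∨ (y.val = m - 2 ∧ x.val < m - 2 ∧ m + 2 + 2 * x.val < j) := by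
  change (if j < 3 * m - 2 then _ else _) ↔ _
  rw [if_pos hj]

lemma inr_inr_iff {j : ℕ} (hj : j ≤ 2 * m + T) (a b : Bool) :
    nx m T q j (.inr a) (.inr b) ↔ a = b := by
  change (a = b ∨ (2 * m + T < j ∧ _)) ↔ _
  have e2 : ¬ 2 * m + T < j := by omega
  simp [e2]

/-- The members before the sum regime, first kind. -/
lemma mid_not (hm : 2 ≤ m) (hq : IsMaximalChain T q) (hT : m - 2 ≤ T) {k : ℕ} (hk : k ≤ m - 2) :
    ¬ FPP (nx m T q (m + 2 * k)) := by
  have ho := new_order hm hq hT (m + 2 * k)
  rcases Nat.eq_zero_or_pos k with h0 | h0
  · subst h0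
    refine not_fpp_isolated ho.1 (.inr true) (.inr false) (by simp) ?_ ?_
    · intro y h
      rw [mul_zero, add_zero, star_member hm] at h
      rcases h with h | h
      · exact h.symm
      · obtain ⟨-, a, ha⟩ := h
        simp at ha
    · intro y h
      rw [mul_zero, add_zero, star_member hm] at h
      rcases h with h | h
      · exact h
      · simp at h
  · intro hF
    obtain ⟨x, hx⟩ := hF (fun x => match x with
      | .inl b => if b.val = k - 1 then .inl ⟨m - 2, by omega⟩ else .inl ⟨k - 1, by omega⟩
      | .inr a => .inr (!a)) (by
        rintro (x | a) (y | b) h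
        · rw [inl_inl_iff (by omega)] at h
          rcases h with h | h
          · rw [h]; exact ho.1 _
          · simp only
            rw [if_neg (by omega), if_neg (by omega)]
            exact ho.1 _
        · simp only
          have hfull : ∀ (z : Fin m) (b : Bool), (z.val = m - 2 ∨ z.val = k - 1) →
              nx m T q (m + 2 * k) (.inl z) (.inr b) := by
            intro z b hz
            change (if b then _ else _) < m + 2 * k
            have := z.2
            cases b
            · simp only [Bool.false_eq_true, if_false]
              omega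
            · simp only [if_true]
              unfold tv
              split_ifs <;> omega
          split_ifs
          · exact hfull _ _ (Or.inl rfl)
          · exact hfull _ _ (Or.inr rfl)
        · exact h.elim
        · rw [inr_inr_iff (by omega)] at h ⊢
          rw [h])
    rcases x with b | a
    · simp only at hx
      split_ifs at hx with h1
      · have := Fin.ext_iff.1 (Sum.inl.inj hx)
        simp only at this
        omega
      · have := Fin.ext_iff.1 (Sum.inl.inj hx)
        simp only at this
        omega
    · simp at hx

/-- The members before the sum regime, second kind. -/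
lemma mid_fpp (hm : 2 ≤ m) (hq : IsMaximalChain T q) (hT : m - 2 ≤ T) {k : ℕ} (hk : k ≤ m - 2) :
    FPP (nx m T q (m + 1 + 2 * k)) := by
  have ho := new_order hm hq hT (m + 1 + 2 * k)
  refine fpp_of_cone ho (.inl ⟨m - 2, by omega⟩) (fun x => match x with
      | .inl b => if b.val < k ∨ b.val = m - 2 then .inl b else .inr false
      | .inr a => .inr a) ?_ ?_ ?_
  · rintro (x | a) (y | b) h
    · by_cases hxy : x = y
      · rw [hxy]; exact ho.1 _
      · have h' := h
        rw [inl_inl_iff (by omega)] at h'
        rcases h' with h' | h'
        · exact absurd h' hxy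
        · simp only
          rw [if_pos (by omega), if_pos (by omega)]
          exact h
    · cases b
      · simp only
        split_ifs
        · exact h
        · exact ho.1 _
      · simp only
        rw [if_pos]
        · exact h
        · change tv m x.val < m + 1 + 2 * k at h
          unfold tv at h
          split_ifs at h <;> omega
    · exact h.elim
    · exact h
  · rintro (x | a)
    · simp only
      split_ifs
      · exact ho.1 _
      · change x.val < m + 1 + 2 * k
        omega
    · exact ho.1 _
  · have hcu : ∀ b : Bool, nx m T q (m + 1 + 2 * k) (.inl ⟨m - 2, by omega⟩) (.inr b) := by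
      intro b
      change (if b then tv m (m - 2) else m - 2) < m + 1 + 2 * k
      cases b
      · simp only [Bool.false_eq_true, if_false]
        omega
      · simp only [if_true]
        simp only [tv, if_true]
        omega
    rintro (x | a)
    · simp only
      split_ifs with h1
      · right
        rw [inl_inl_iff (by omega)]
        by_cases h2 : x.val = m - 2
        · left
          exact Fin.ext h2
        · right
          refine ⟨rfl, by omega, by omega⟩
      · left
        exact hcu _
    · left
      exact hcu _

/-- The properties of the chains constructed. -/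
structure Good (n : ℕ) (r : ℕ → Fin n → Fin n → Prop) : Prop where
  chain : IsMaximalChain (n.choose 2) r
  star : ∀ x y, r (n - 2) x y ↔ x = y ∨ (y.val = n - 2 ∧ x.val < n - 2)
  alt : ∀ k, k ≤ (n - 2) ^ 2 / 4 → ¬ FPP (r (n - 2 + 2 * k)) ∧ FPP (r (n - 1 + 2 * k))

lemma fpp_equiv_iff {α β : Type} (f : β ≃ α) {r : α → α → Prop} :
    FPP (fun x y => r (f x) (f y)) ↔ FPP r := by
  refine ⟨fpp_equiv f, fun h => ?_⟩
  apply fpp_equiv f.symm
  simpa using h

lemma good_step {m : ℕ} (hm : 2 ≤ m) {q : ℕ → Fin m → Fin m → Prop} (hq : Good m q) :
    ∃ r, Good (m + 2) r := by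
  have hT : m - 2 ≤ m.choose 2 := by
    rw [Nat.choose_two_right, Nat.le_div_iff_mul_le (by norm_num)]
    obtain ⟨l, rfl⟩ : ∃ l, m = l + 2 := ⟨m - 2, by omega⟩
    have e1 : l + 2 - 2 = l := by omega
    have e2 : l + 2 - 1 = l + 1 := by omega
    rw [e1, e2]
    nlinarith
  let e : Fin (m + 2) ≃ Fin m ⊕ Bool :=
    finSumFinEquiv.symm.trans (Equiv.sumCongr (Equiv.refl _) finTwoEquiv)
  have he0 : ∀ x : Fin (m + 2), (e x = .inr false ↔ x.val = m) := by
    intro x
    refine Fin.addCases (fun a => ?_) (fun a => ?_) x
    · simp [e]
      omega
    · simp only [e, Equiv.trans_apply, finSumFinEquiv_symm_apply_natAdd, Equiv.sumCongr_apply,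
        Sum.map_inr, Sum.inr.injEq]
      fin_cases a <;> simp [finTwoEquiv]
  have he1 : ∀ x : Fin (m + 2), ((∃ a, e x = .inl a) ↔ x.val < m) := by
    intro x
    refine Fin.addCases (fun a => ?_) (fun a => ?_) x
    · simp [e]
    · simp [e]
  have hsq : (m + 2 - 2) ^ 2 / 4 = (m - 2) ^ 2 / 4 + (m - 1) := by
    obtain ⟨l, rfl⟩ : ∃ l, m = l + 2 := ⟨m - 2, by omega⟩
    have e1 : l + 2 - 2 = l := by omega
    have e2 : l + 2 - 1 = l + 1 := by omega
    rw [e1, e2, show l + 2 + 2 - 2 = l + 2 by omega,
      show (l + 2) ^ 2 = l ^ 2 + 4 * (l + 1) by ring]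
    omega
  refine ⟨fun i x y => nx m (m.choose 2) q i (e x) (e y), ?_, ?_, ?_⟩
  · rw [choose_step]
    exact chain_equiv e (new_chain hm hq.chain hT hq.star)
  · intro x y
    rw [show m + 2 - 2 = m by omega, star_member hm, he0, he1, e.injective.eq_iff]
  · intro k hk
    rw [hsq] at hk
    rw [fpp_equiv_iff e (r := nx m (m.choose 2) q (m + 2 - 2 + 2 * k)),
      fpp_equiv_iff e (r := nx m (m.choose 2) q (m + 2 - 1 + 2 * k)),
      show m + 2 - 2 + 2 * k = m + 2 * k by omega, show m + 2 - 1 + 2 * k = m + 1 + 2 * k by omega]
    have hTb : 2 * (m.choose 2) = m * (m - 1) := by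
      rw [Nat.choose_two_right]
      exact Nat.mul_div_cancel' (Nat.even_mul_pred_self m).two_dvd
    by_cases h1 : k ≤ m - 2
    · exact ⟨mid_not hm hq.chain hT h1, mid_fpp hm hq.chain hT h1⟩
    · obtain ⟨l, rfl⟩ : ∃ l, k = m - 1 + l := ⟨k - (m - 1), by omega⟩
      have hl : l ≤ (m - 2) ^ 2 / 4 := by omega
      have hl2 : m + 1 + 2 * (m - 1 + l) ≤ 2 * m + m.choose 2 := by
        obtain ⟨p, rfl⟩ : ∃ p, m = p + 2 := ⟨m - 2, by omega⟩
        have e1 : p + 2 - 2 = p := by omega
        have e2 : p + 2 - 1 = p + 1 := by omega
        rw [e1] at hl
        rw [e2] at hTb ⊢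
        have h4 : 4 * l ≤ p ^ 2 := by omega
        nlinarith
      have h2 := hq.alt l hl
      rw [sum_regime hm hq.chain hT (by omega) (by omega),
        sum_regime hm hq.chain hT (by omega) hl2,
        show m + 2 * (m - 1 + l) - 2 * m = m - 2 + 2 * l by omega,
        show m + 1 + 2 * (m - 1 + l) - 2 * m = m - 1 + 2 * l by omega]
      exact h2

/-- A point comparable to all others gives the fixed point property. -/
lemma fpp_of_center {α : Type} [Fintype α] {s : α → α → Prop} (hs : IsOrder s) (c : α)
    (hc : ∀ x, s c x ∨ s x c) : FPP s :=
  fpp_of_cone hs c id (fun _ _ h => h) (fun x => hs.1 x) hc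

lemma good_two : Good 2 (fun i x y => x = y ∨ (0 < i ∧ x = 0 ∧ y = 1)) where
  chain := chain_two
  star := by
    intro x y
    simp
  alt := by
    intro k hk
    have hk0 : k = 0 := by simpa using hk
    subst hk0
    constructor
    · refine not_fpp_isolated (fun x => Or.inl rfl) 1 0 (by simp) ?_ ?_
      · rintro y (h | h)
        · exact h.symm
        · omega
      · rintro y (h | h)
        · exact h
        · omega
    · refine fpp_of_center (chain_two.order 1 (by decide)) 0 ?_
      intro x
      left
      fin_cases x <;> simp

/-- The chain on three points. -/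
def r3 (i : ℕ) (x y : Fin 3) : Prop :=
  x.val = y.val ∨ (0 < i ∧ x.val = 0 ∧ y.val = 1) ∨ (1 < i ∧ x.val = 0 ∧ y.val = 2) ∨
    (2 < i ∧ x.val = 1 ∧ y.val = 2)

lemma good_three : Good 3 r3 := by
  have hch : (3 : ℕ).choose 2 = 3 := rfl
  have hord : ∀ i, IsOrder (r3 i) := by
    intro i
    refine ⟨fun x => Or.inl rfl, ?_, ?_⟩
    · intro x y h1 h2
      unfold r3 at h1 h2
      apply Fin.ext
      omega
    · intro x y z h1 h2
      unfold r3 at h1 h2 ⊢
      omega
  refine ⟨⟨fun i _ => hord i, ?_, ?_, ?_⟩, ?_, ?_⟩
  · intro x y
    unfold r3
    rw [Fin.ext_iff]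
    omega
  · intro i hi
    rw [hch] at hi
    interval_cases i
    · refine ⟨0, 1, by simp [r3], fun x y => ?_⟩
      simp only [r3, Fin.ext_iff, Fin.val_zero, Fin.val_one]
      omega
    · refine ⟨0, 2, by simp [r3], fun x y => ?_⟩
      simp only [r3, Fin.ext_iff, Fin.val_zero, Fin.val_two]
      omega
    · refine ⟨1, 2, by simp [r3], fun x y => ?_⟩
      simp only [r3, Fin.ext_iff, Fin.val_one, Fin.val_two]
      omega
  · intro x y
    rw [hch]
    unfold r3
    omega
  · intro x y
    unfold r3
    rw [Fin.ext_iff]
    omega
  · intro k hk
    have hk0 : k = 0 := by simpa using hk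
    subst hk0
    constructor
    · refine not_fpp_isolated (hord _).1 2 0 (by decide) ?_ ?_
      · intro y h
        unfold r3 at h
        simp only [Fin.val_two] at h
        apply Fin.ext
        simp only [Fin.val_two]
        omega
      · intro y h
        unfold r3 at h
        simp only [Fin.val_two] at h
        apply Fin.ext
        simp only [Fin.val_two]
        omega
    · refine fpp_of_center (hord _) 0 ?_
      intro x
      left
      change ((0 : Fin 3).val = x.val ∨ (0 < 2 ∧ (0 : Fin 3).val = 0 ∧ x.val = 1) ∨
        (1 < 2 ∧ (0 : Fin 3).val = 0 ∧ x.val = 2) ∨ (2 < 2 ∧ (0 : Fin 3).val = 1 ∧ x.val = 2))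
      fin_cases x <;> simp

lemma exists_good (n : ℕ) (hn : 2 ≤ n) : ∃ r, Good n r := by
  induction n using Nat.strong_induction_on with
  | _ n ih =>
    rcases Nat.lt_or_ge n 4 with h | h
    · interval_cases n
      · exact ⟨_, good_two⟩
      · exact ⟨_, good_three⟩
    · obtain ⟨m, rfl⟩ : ∃ m, n = m + 2 := ⟨n - 2, by omega⟩
      obtain ⟨q, hq⟩ := ih m (by omega) (by omega)
      exact good_step (by omega) hq

/-- The lower bound. -/
lemma le_countAdj {n : ℕ} (hn : 2 ≤ n) {r : ℕ → Fin n → Fin n → Prop} (hr : Good n r) :
    1 + (n - 2) ^ 2 / 4 ≤ countAdj (n.choose 2) r := by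
  classical
  unfold countAdj
  have h1 : 1 + (n - 2) ^ 2 / 4 = (range (1 + (n - 2) ^ 2 / 4)).card := (card_range _).symm
  rw [h1]
  refine card_le_card_of_injOn (fun k => n - 2 + 2 * k) ?_ ?_
  · intro k hk
    rw [mem_coe, mem_range] at hk
    rw [mem_coe, mem_filter, mem_range]
    obtain ⟨h2, h3⟩ := hr.alt k (by omega)
    refine ⟨?_, h2, ?_⟩
    · obtain ⟨p, rfl⟩ : ∃ p, n = p + 2 := ⟨n - 2, by omega⟩
      have hTb : 2 * ((p + 2).choose 2) = (p + 2) * (p + 2 - 1) := by
        rw [Nat.choose_two_right]
        exact Nat.mul_div_cancel' (Nat.even_mul_pred_self _).two_dvd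
      have e1 : p + 2 - 2 = p := by omega
      have e2 : p + 2 - 1 = p + 1 := by omega
      rw [e1] at hk
      rw [e2] at hTb
      have h4 : 4 * k ≤ p ^ 2 := by omega
      change p + 2 - 2 + 2 * k < _
      rw [e1]
      nlinarith
    · rw [show n - 2 + 2 * k + 1 = n - 1 + 2 * k by omega]
      exact h3
  · intro i _ j _ hij
    change n - 2 + 2 * i = n - 2 + 2 * j at hij
    omega

end lower

/-- **Result.** For every `n`, the largest number of adjacencies `≤ᵢ ≺ ≤ᵢ₊₁` such that `≤ᵢ` lacks
the fixed point property and `≤ᵢ₊₁` has it, over all maximal chains of order relations on an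
`n`-element set, is `1 + ⌊(n - 2)² / 4⌋` if `n ≥ 2`, and `0` if `n ≤ 1`. -/
theorem result (n : ℕ) :
    IsGreatest {k : ℕ | ∃ r : ℕ → Fin n → Fin n → Prop,
      IsMaximalChain (n.choose 2) r ∧ k = countAdj (n.choose 2) r}
      (if n ≤ 1 then 0 else 1 + (n - 2) ^ 2 / 4) := by
  have upper : ∀ r : ℕ → Fin n → Fin n → Prop, IsMaximalChain (n.choose 2) r →
      countAdj (n.choose 2) r ≤ (if n ≤ 1 then 0 else 1 + (n - 2) ^ 2 / 4) := by
    intro r hr
    split_ifs with h1
    · have h2 : n.choose 2 = 0 := Nat.choose_eq_zero_of_lt (by omega)
      rw [h2]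
      simp [countAdj]
    · rw [Nat.add_comm 1]
      apply countAdj_le hr
      rw [Fintype.card_fin]
      obtain ⟨p, rfl⟩ : ∃ p, n = p + 2 := ⟨n - 2, by omega⟩
      have hTb : 2 * ((p + 2).choose 2) = (p + 2) * (p + 2 - 1) := by
        rw [Nat.choose_two_right]
        exact Nat.mul_div_cancel' (Nat.even_mul_pred_self _).two_dvd
      have e1 : p + 2 - 2 = p := by omega
      have e2 : p + 2 - 1 = p + 1 := by omega
      rw [e1]
      rw [e2] at hTb
      rw [hTb]
      have h5 : p ^ 2 % 4 = 0 ∨ p ^ 2 % 4 = 1 := by
        rcases Nat.even_or_odd' p with ⟨c, rfl | rfl⟩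
        · left
          rw [show (2 * c) ^ 2 = 4 * c ^ 2 by ring]
          omega
        · right
          rw [show (2 * c + 1) ^ 2 = 4 * (c ^ 2 + c) + 1 by ring]
          omega
      have h6 : (p + 2) * (p + 1) = p ^ 2 + 3 * p + 2 := by ring
      rw [h6]
      omega
  refine ⟨?_, ?_⟩
  · by_cases h1 : n ≤ 1
    · have h2 : n.choose 2 = 0 := Nat.choose_eq_zero_of_lt (by omega)
      refine ⟨fun _ x y => x = y, ⟨fun i _ => ⟨fun _ => rfl, fun _ _ h _ => h,
        fun _ _ _ h1 h2 => h1.trans h2⟩, fun _ _ => Iff.rfl, fun i hi => by omega, ?_⟩, ?_⟩
      · intro x y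
        left
        apply Fin.ext
        omega
      · rw [if_pos h1, h2]
        simp [countAdj]
    · obtain ⟨r, hr⟩ := exists_good n (by omega)
      refine ⟨r, hr.chain, le_antisymm ?_ (upper r hr.chain)⟩
      rw [if_neg h1]
      exact le_countAdj (by omega) hr
  · rintro k ⟨r, hr, rfl⟩
    exact upper r hr

end Pool.Agent.Results.MP_eb30e1_co.MostAdjacencies
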